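import Pool.Agent.H37.IS.Stm3

set_option autoImplicit false

namespace H37.IS

open N36365310

theorem SUM_proved : S_SUM := by
  intro H _ _ _ J d N K k hW
  have hcardH : 100 * Fintype.card H ≤ N := by
    rw [hW.hN, mul_comm, ← smul_eq_mul, ← Finset.card_univ, ← Finset.sum_const]
    exact Finset.sum_le_sum fun v _ => hW.hK.trans (hW.hd v)
  have hN0 := hW.hN0
  have hlo := hW.hlo
  have hhi := hW.hhi
  have hA1 : ∀ A : Finset H, A.card ≤ Fintype.card H := fun A => Finset.card_le_univ A
  have hAk : ∀ A : Finset H, A.card ≤ k := fun A => by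
    have := hA1 A
    omega
  have hdS : ∀ A : Finset H, dS d A ≤ N := by
    intro A
    rw [hW.hN]
    unfold dS
    exact Finset.sum_le_sum_of_subset (Finset.subset_univ A)
  have key : ∀ t : ℕ, (FF J d N (k + t) : ℝ) =
      ∑ A ∈ Om J d N k, ((N - dS d A).choose (k - A.card + t) : ℝ) := by
    intro t
    unfold FF Om sumch
    push_cast
    symm
    apply Finset.sum_subset_zero_on_sdiff
    · intro A hA
      simp only [Finset.mem_filter] at hA ⊢
      exact ⟨hA.1, hA.2.1⟩
    · intro A hA
      simp only [Finset.mem_sdiff, Finset.mem_filter] at hA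
      obtain ⟨⟨h1, h2⟩, h3⟩ := hA
      have h4 : N - dS d A < k - A.card := by
        by_contra hc
        push Not at hc
        exact h3 ⟨h1, h2, hc⟩
      have h5 := hAk A
      unfold ch
      rw [if_pos (by omega), Nat.choose_eq_zero_of_lt (by omega)]
      simp
    · intro A hA
      have h5 := hAk A
      unfold ch
      rw [if_pos (by omega)]
      have : k + t - A.card = k - A.card + t := by omega
      rw [this]
  have hcM : ∀ A : Finset H, ((N - dS d A : ℕ) : ℝ) = (N : ℝ) - dS d A := fun A => by
    rw [Nat.cast_sub (hdS A)]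
  have hck : ∀ A : Finset H, ((k - A.card : ℕ) : ℝ) = (k : ℝ) - A.card := fun A => by
    rw [Nat.cast_sub (hAk A)]
  have hrho : ∀ A : Finset H, rho d N k A =
      (((N - dS d A : ℕ) : ℝ) - ((k - A.card : ℕ) : ℝ)) / (((k - A.card : ℕ) : ℝ) + 1) := by
    intro A
    unfold rho
    rw [hcM, hck]
    congr 1
    ring
  have hmem : ∀ A ∈ Om J d N k, k - A.card ≤ N - dS d A := by
    intro A hA
    unfold Om at hA
    simp only [Finset.mem_filter] at hA
    exact hA.2.2
  have step : ∀ M j : ℕ, j ≤ M → ((M.choose (j + 1) : ℕ) : ℝ) =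
      (M.choose j : ℝ) * (((M : ℝ) - j) / ((j : ℝ) + 1)) := by
    intro M j hj
    have h := Nat.choose_succ_right_eq M j
    have h' : ((M.choose (j + 1) : ℕ) : ℝ) * ((j : ℝ) + 1) = (M.choose j : ℝ) * ((M : ℝ) - j) := by
      rw [← Nat.cast_sub hj]
      exact_mod_cast h
    rw [← mul_div_assoc, eq_div_iff (by positivity)]
    exact h'
  refine ⟨?_, ?_, ?_⟩
  · have := key 0
    simpa [wt] using this
  · rw [key 1]
    refine Finset.sum_congr rfl fun A hA => ?_
    rw [step _ _ (hmem A hA), hrho]
    rfl
  · rw [key 2, Finset.mul_sum]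
    refine Finset.sum_le_sum fun A hA => ?_
    have hj := hmem A hA
    have hb : 11 ≤ k - A.card := by
      have := hA1 A
      omega
    have hMN : N - dS d A ≤ N := Nat.sub_le _ _
    rw [hrho]
    unfold wt
    generalize N - dS d A = M at *
    generalize k - A.card = j at *
    have hNpos : (0 : ℝ) < N := by
      have : 0 < N := by omega
      exact_mod_cast this
    rcases Nat.lt_or_ge j M with hlt | hge
    · have e1 := step M j hj
      have e2 := step M (j + 1) hlt
      have e3 : j + 2 = j + 1 + 1 := rfl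
      rw [e3, e2, e1]
      push_cast
      have ha1 : (1 : ℝ) ≤ (M : ℝ) - j := by
        have : (j : ℝ) + 1 ≤ M := by exact_mod_cast hlt
        linarith
      have hb1 : (11 : ℝ) ≤ j := by exact_mod_cast hb
      have hMN' : (M : ℝ) ≤ N := by exact_mod_cast hMN
      have hC : (0 : ℝ) ≤ (M.choose j : ℝ) := by positivity
      set a : ℝ := (M : ℝ) - j with ha
      set b : ℝ := (j : ℝ) + 1 with hbb
      have hab : a + b ≤ N + 1 := by rw [ha, hbb]; linarith
      have hb12 : 12 ≤ b := by rw [hbb]; linarith
      have e4 : (M : ℝ) - (j + 1) = a - 1 := by rw [ha]; ring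
      have e5 : (j : ℝ) + 1 + 1 = b + 1 := by rw [hbb]
      rw [e4]
      have main : (a - 1) / (b + 1) ≤ (1 - 3 / N) * (a / b) := by
        have hb0 : 0 < b := by linarith
        have hb10 : 0 < b + 1 := by linarith
        have e6 : (1 - 3 / (N : ℝ)) * (a / b) = ((N - 3) * a) / (N * b) := by
          field_simp
        rw [e6, div_le_div_iff₀ hb10 (by positivity)]
        have hs : 12 ≤ a + b := by linarith
        have h3 : 3 * (a * (b + 1)) ≤ N * (a + b) := by
          nlinarith [sq_nonneg (a - (b + 1)), mul_nonneg (by linarith : (0 : ℝ) ≤ a + b - 12) (by linarith : (0 : ℝ) ≤ a + b),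
            mul_nonneg (by linarith : (0 : ℝ) ≤ N + 1 - (a + b)) (by linarith : (0 : ℝ) ≤ a + b)]
        nlinarith
      have h0 : 0 ≤ (M.choose j : ℝ) * (a / b) := by positivity
      calc (M.choose j : ℝ) * (a / b) * ((a - 1) / (b + 1))
          ≤ (M.choose j : ℝ) * (a / b) * ((1 - 3 / N) * (a / b)) := mul_le_mul_of_nonneg_left main h0
        _ = (1 - 3 / N) * ((M.choose j : ℝ) * (a / b) ^ 2) := by ring
    · have hMj : M = j := le_antisymm hge hj
      subst hMj
      rw [Nat.choose_eq_zero_of_lt (by omega)]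
      simp

end H37.IS
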